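import Pool.Agent.U635.Equi
import Pool.Agent.U635.Rec

/-!
# The wired uniform spanning tree of a recurrent random graph is a graph factor of i.i.d.
-/

set_option autoImplicit false
set_option linter.unusedSectionVars false

namespace Pool.Agent.Results.MP_688e31_pr.FactorOfIID

open Pool.Agent.U635 Pool.Agent.TH968.UST MeasureTheory Filter
open scoped ENNReal Topology

/-- The factor map with scales `N`. -/
noncomputable def fac (N : ℕ → ℕ) (W : Type) (G : SimpleGraph W) (u : W → unitInterval) :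
    Set (Sym2 W) :=
  Psi G N (fun v n => sv (u v) (Sum.inl n)) (fun v n => sv (u v) (Sum.inr n))

theorem fac_measurable (N : ℕ → ℕ) (W : Type) [Countable W] :
    Measurable fun p : SimpleGraph W × (W → unitInterval) => fac N W p.1 p.2 := by
  have hs := sv_meas
  rw [measurable_set_iff]
  intro e
  exact meas_Psi (G := fun p : SimpleGraph W × (W → unitInterval) => p.1) measurable_fst
    (fun v n => by fun_prop) (fun v n => by fun_prop) N e

theorem fac_equivariant (N : ℕ → ℕ) (W W' : Type) (G : SimpleGraph W) (G' : SimpleGraph W')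
    (φ : G ≃g G') (u : W → unitInterval) :
    fac N W' G' (fun w => u (φ.symm w)) = Sym2.map φ '' fac N W G u := by
  unfold fac
  refine Psi_iso (G := G) (H := G') φ.toEquiv (fun x y => φ.map_adj_iff) N (fun v => ?_)
    (fun v => ?_)
  · funext n
    simp
  · funext n
    simp

theorem fac_law {V : Type} [Countable V] (G : SimpleGraph V)
    (hf : ∀ v, (G.neighborSet v).Finite) (hc : G.Connected) (hrec : Recurrent G) (N : ℕ → ℕ)
    (hN : ∀ n, 1 ≤ N n) (hgood : ∀ x y, G.Adj x y → ∑' n, dl G (N n) x y ≠ ∞) :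
    IsWUSF G ((Measure.infinitePi fun _ : V => (volume : Measure unitInterval)).map
      (fac N V G)) := by
  intro B hBm hB F A
  have hmfac : Measurable (fac N V G) := (fac_measurable N V).comp
    (measurable_const.prodMk measurable_id : Measurable fun u : V → unitInterval => (G, u))
  have hmset : MeasurableSet {T : Set (Sym2 V) | T ∩ (F : Set (Sym2 V)) = A} :=
    meas_inter (S := fun T : Set (Sym2 V) => T) (fun e => measurable_set_mem e) _ _
  rw [Measure.map_apply hmfac hmset]
  -- transfer to the split labels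
  have hmΨ : MeasurableSet {p : (V → ℕ → unitInterval) × (V → ℕ → unitInterval) |
      Psi G N p.1 p.2 ∩ (F : Set (Sym2 V)) = A} :=
    meas_inter (fun e => meas_Psi
      (Ω := (V → ℕ → unitInterval) × (V → ℕ → unitInterval)) (G := fun _ => G)
      (a := fun p => p.1) (r := fun p => p.2) measurable_const (fun v n => by fun_prop)
      (fun v n => by fun_prop) N e) _ _
  have hsplit : mu V (fac N V G ⁻¹' {T | T ∩ (F : Set (Sym2 V)) = A}) =
      ((lam V).prod (lam V)) {p : (V → ℕ → unitInterval) × (V → ℕ → unitInterval) |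
        Psi G N p.1 p.2 ∩ (F : Set (Sym2 V)) = A} := by
    have hs := sv_meas
    rw [← mu_split, Measure.map_apply (by fun_prop) hmΨ]
    rfl
  have hBm' : ∀ v, ∃ m0, ∀ m, m0 ≤ m → v ∈ B m := by
    intro v
    obtain ⟨n, hn⟩ := hB v
    exact ⟨n, fun m hm => hBm hm hn⟩
  -- almost every environment
  have hae : ∀ᵐ a ∂(lam V), Tendsto (fun n => ustProb (wired (B n)) (touch G (B n)) F A) atTop
      (𝓝 (lam V {r | Psi G N a r ∩ (F : Set (Sym2 V)) = A}).toReal) := by
    filter_upwards [ae_inj (V := V), ae_rel G hf N hN hgood] with a ha1 ha2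
    exact law_Psi hf hc hrec ha1 ha2 B hBm' F A
  obtain ⟨a0, ha0⟩ := hae.exists
  have hconst : ∀ᵐ a ∂(lam V), lam V {r | Psi G N a r ∩ (F : Set (Sym2 V)) = A} =
      lam V {r | Psi G N a0 r ∩ (F : Set (Sym2 V)) = A} := by
    filter_upwards [hae] with a ha
    have := tendsto_nhds_unique ha ha0
    exact (ENNReal.toReal_eq_toReal_iff' (measure_ne_top _ _) (measure_ne_top _ _)).1 this
  have hval : ((lam V).prod (lam V)) {p : (V → ℕ → unitInterval) × (V → ℕ → unitInterval) |
        Psi G N p.1 p.2 ∩ (F : Set (Sym2 V)) = A} =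
      lam V {r | Psi G N a0 r ∩ (F : Set (Sym2 V)) = A} := by
    rw [Measure.prod_apply hmΨ]
    have h1 : ∫⁻ a, lam V (Prod.mk a ⁻¹' {p : (V → ℕ → unitInterval) × (V → ℕ → unitInterval) |
        Psi G N p.1 p.2 ∩ (F : Set (Sym2 V)) = A}) ∂(lam V) =
        ∫⁻ _a, lam V {r | Psi G N a0 r ∩ (F : Set (Sym2 V)) = A} ∂(lam V) := by
      refine lintegral_congr_ae ?_
      filter_upwards [hconst] with a ha
      exact ha
    rw [h1, lintegral_const, measure_univ, mul_one]
  change Tendsto (fun n => ustProb (wired (B n)) (touch G (B n)) F A) atTop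
      (𝓝 (mu V (fac N V G ⁻¹' {T | T ∩ (F : Set (Sym2 V)) = A})).toReal)
  rw [hsplit, hval]
  exact ha0

/-- scales which are good for countably many random graphs at once -/
theorem exists_good {ι : Type} [Countable ι] (V Ω : ι → Type) [∀ i, Countable (V i)]
    [∀ i, MeasurableSpace (Ω i)] (P : ∀ i, Measure (Ω i)) [∀ i, IsFiniteMeasure (P i)]
    (G : ∀ i, Ω i → SimpleGraph (V i)) (hG : ∀ i, Measurable (G i))
    (hf : ∀ i, ∀ᵐ ω ∂P i, ∀ v, ((G i ω).neighborSet v).Finite)
    (hR : ∀ i, ∀ᵐ ω ∂P i, Recurrent (G i ω)) :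
    ∃ N : ℕ → ℕ, (∀ n, 1 ≤ N n) ∧ ∀ i, ∀ᵐ ω ∂P i, ∀ x y, (G i ω).Adj x y →
      ∑' n, dl (G i ω) (N n) x y ≠ ∞ := by
  classical
  let f : ℕ → (Σ i, V i × V i) → ℝ≥0∞ := fun N p =>
    ∫⁻ ω, (if (G p.1 ω).Adj p.2.1 p.2.2 then dl (G p.1 ω) N p.2.1 p.2.2 else 0) ∂P p.1
  have hmeas : ∀ (N : ℕ) (p : Σ i, V i × V i), Measurable fun ω =>
      (if (G p.1 ω).Adj p.2.1 p.2.2 then dl (G p.1 ω) N p.2.1 p.2.2 else 0 : ℝ≥0∞) := fun N p =>
    Measurable.ite (measurableSet_setOfPred.2 (meas_adj (hG p.1) _ _)) (meas_dl (hG p.1) N _ _)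
      measurable_const
  have hle : ∀ (N : ℕ) (p : Σ i, V i × V i) (ω : Ω p.1),
      (if (G p.1 ω).Adj p.2.1 p.2.2 then dl (G p.1 ω) N p.2.1 p.2.2 else 0 : ℝ≥0∞) ≤ 1 := by
    intro N p ω
    split_ifs
    · exact dl_le_one _ _ _ _
    · exact zero_le_one
  obtain ⟨N, hN1, hN2⟩ := exists_scales f (fun p => P p.1 Set.univ) (fun p => measure_ne_top _ _)
    (by
      intro N p
      calc f N p ≤ ∫⁻ _ω, 1 ∂P p.1 := lintegral_mono fun ω => hle N p ω
        _ = P p.1 Set.univ := by simp)
    (by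
      intro p
      have h := tendsto_lintegral_of_dominated_convergence (μ := P p.1)
        (F := fun N ω => (if (G p.1 ω).Adj p.2.1 p.2.2 then dl (G p.1 ω) N p.2.1 p.2.2 else 0 :
          ℝ≥0∞)) (f := fun _ => 0) (fun _ => 1) (fun N => hmeas N p)
        (fun N => Filter.Eventually.of_forall fun ω => hle N p ω) (by simp) (by
          filter_upwards [hf p.1, hR p.1] with ω h1 h2
          by_cases hadj : (G p.1 ω).Adj p.2.1 p.2.2
          · simp only [if_pos hadj]
            exact dl_tendsto (G p.1 ω) h1 hadj.symm (h2 _ ⟨_, hadj.symm⟩)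
          · simp only [if_neg hadj]
            exact tendsto_const_nhds)
      simpa using h)
  refine ⟨N, hN1, fun i => ?_⟩
  rw [ae_all_iff]; intro x
  rw [ae_all_iff]; intro y
  have h1 := hN2 ⟨i, x, y⟩
  have h2 : ∫⁻ ω, ∑' n, (if (G i ω).Adj x y then dl (G i ω) (N n) x y else 0 : ℝ≥0∞) ∂P i ≠ ∞ := by
    rw [lintegral_tsum fun n => (hmeas (N n) ⟨i, x, y⟩).aemeasurable]
    exact h1
  have h3 := ae_lt_top (Measurable.tsum fun n => hmeas (N n) ⟨i, x, y⟩) h2
  filter_upwards [h3] with ω hω hadj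
  simp only [if_pos hadj] at hω
  exact hω.ne

/-- **The wired uniform spanning tree of a recurrent random rooted graph is a graph factor of
i.i.d. labels.** No unimodularity is needed. -/
theorem result {Ω : Type} [MeasurableSpace Ω] (P : Measure Ω) [IsProbabilityMeasure P]
    (X : RandomRootedGraph P)
    (hR : ∀ᵐ ω ∂P, RecurrentAt (X.graph (X.kind ω) ω) (X.root (X.kind ω) ω)) :
    ∃ Φ : (W : Type) → SimpleGraph W → (W → unitInterval) → Set (Sym2 W), IsFactorMap Φ ∧
      ∀ᵐ ω ∂P, IsWUSF (X.graph (X.kind ω) ω)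
        ((Measure.infinitePi fun _ : X.V (X.kind ω) => (volume : Measure unitInterval)).map
          (Φ _ (X.graph (X.kind ω) ω))) := by
  have hcount : ∀ i, Countable (X.V i) := X.countable
  -- the pieces
  have hpiece : ∀ Q : (i : ℕ) → Ω → Prop, (∀ᵐ ω ∂P, Q (X.kind ω) ω) →
      ∀ i, ∀ᵐ ω ∂(P.restrict (X.kind ⁻¹' {i})), Q i ω := by
    intro Q hQ i
    rw [ae_restrict_iff' (X.measurable_kind (measurableSet_singleton i))]
    filter_upwards [hQ] with ω hω hi
    have hi' : X.kind ω = i := hi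
    rw [← hi']; exact hω
  have hglue : ∀ Q : (i : ℕ) → Ω → Prop,
      (∀ i, ∀ᵐ ω ∂(P.restrict (X.kind ⁻¹' {i})), Q i ω) → ∀ᵐ ω ∂P, Q (X.kind ω) ω := by
    intro Q hQ
    have h1 : ∀ i, ∀ᵐ ω ∂P, X.kind ω = i → Q i ω := by
      intro i
      have := hQ i
      rwa [ae_restrict_iff' (X.measurable_kind (measurableSet_singleton i))] at this
    filter_upwards [ae_all_iff.2 h1] with ω hω
    exact hω _ rfl
  have hrec : ∀ᵐ ω ∂P, Recurrent (X.graph (X.kind ω) ω) := by
    filter_upwards [hR, X.connected, X.locallyFinite] with ω h1 h2 h3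
    exact recurrent_of_at _ h3 h2 _ h1
  have h1 := hpiece (fun i ω => (X.graph i ω).Connected) X.connected
  have h2 := hpiece (fun i ω => ∀ x, ((X.graph i ω).neighborSet x).Finite) X.locallyFinite
  have h3 := hpiece (fun i ω => Recurrent (X.graph i ω)) hrec
  obtain ⟨N, hN1, hN2⟩ := exists_good X.V (fun _ => Ω) (fun i => P.restrict (X.kind ⁻¹' {i}))
    X.graph X.measurable_graph h2 h3
  refine ⟨fac N, ⟨fun W _ => fac_measurable N W, fac_equivariant N⟩, ?_⟩
  refine hglue (fun i ω => IsWUSF (X.graph i ω)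
    ((Measure.infinitePi fun _ : X.V i => (volume : Measure unitInterval)).map
      (fac N _ (X.graph i ω)))) fun i => ?_
  filter_upwards [h1 i, h2 i, h3 i, hN2 i] with ω k1 k2 k3 k4
  exact fac_law _ k2 k1 k3 N hN1 k4

end Pool.Agent.Results.MP_688e31_pr.FactorOfIID
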